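import Mathlib
import Pool.Agent.Y733.HEN.Pol

/-!
# Polynomials with few bad primes: no preperiodic points of small degree, over all number fields of
# all degrees

All constants below are absolute: they do not depend on the number field `K` nor on its degree `n`.

For all `c ∈ K` of height at most `B`, outside a set of at most `(C * B ^ (2 - (1 - κ) / 2 + ε)) ^ n`
elements, the following holds for ALL polynomials `F = a_d y ^ d + ... + a_1 y + c` over `K` of any
degree `d ≥ 2` with constant term `c` and ARBITRARY other coefficients in `K`, for all extensions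
`L` of `K` of degree less than `d` and for all `x ∈ L`: the absolute height of `F^(k+1) (x)` is at
least `d ^ k (κ (1 + h(c)) - s)`, where `s` is the sum of `log N v / n` over the bad primes `v` of
the other coefficients: those where some `a_i`, `i ≥ 1`, is not integral or `a_d` is not a unit.
There is no restriction on the sizes of the coefficients. So `F` has no preperiodic points of degree
less than `d` over `K`, if `s < κ (1 + h(c))`.

Proof: let `v` be a prime of `K` where `c` has a simple pole, the other coefficients are integral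
and `a_d` is a unit, and let `w` be a prime of `L` above `v`. Then `|F(y)|_w ≥ |c|_w`, and
`|F(y)|_w = |y|_w ^ d` if `|y|_w > 1`; it follows that every point escapes at `w`. For most `c` the
simple poles give nearly all of the height, since an element of `K` is determined by its numerator
and denominator and by a unit, and the counts of ideals and of units are uniform in all number
fields.
-/

set_option autoImplicit false
set_option linter.unusedSectionVars false

namespace Pool.Agent.Results.MP_13bc7b_nt.AllFieldsPolynomials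

open NumberField Polynomial IsDedekindDomain

section Defs

/-- the absolute logarithmic height of an element -/
noncomputable def h {K : Type} [Field K] [NumberField K] (x : K) : ℝ :=
  Height.logHeight₁ x / Module.finrank ℚ K

variable {K : Type} [Field K] [NumberField K]

/-- the finite set `T` contains all bad primes of the coefficients other than the constant term:
outside `T` the coefficients `a_1, ..., a_d` are integral and `a_d` is a unit -/
def ContainsBad (F : K[X]) (T : Finset (HeightOneSpectrum (𝓞 K))) : Prop :=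
  ∀ v, v ∉ T → (∀ i, 1 ≤ i → FinitePlace.mk v (F.coeff i) ≤ 1) ∧
    FinitePlace.mk v F.leadingCoeff = 1

/-- the sum of `log N v / n` over the primes in `T` -/
noncomputable def logNorm (T : Finset (HeightOneSpectrum (𝓞 K))) : ℝ :=
  (∑ v ∈ T, Real.log (Ideal.absNorm v.asIdeal)) / Module.finrank ℚ K

/-- all polynomials with constant term `c` push all points of degree less than `d` over `K` away -/
def PushesAway (κ : ℝ) (c : K) : Prop :=
  ∀ F : K[X], 2 ≤ F.natDegree → F.coeff 0 = c →
    ∀ T : Finset (HeightOneSpectrum (𝓞 K)), ContainsBad F T →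
    ∀ (L : Type) [Field L] [NumberField L] [Algebra K L], Module.finrank K L < F.natDegree →
      ∀ (x : L) (k : ℕ), F.natDegree ^ k * (κ * (1 + h c) - logNorm T) ≤
        h ((fun y : L => aeval y F)^[k + 1] x)

variable (K)

/-- the root discriminant -/
noncomputable def rootDisc : ℝ :=
  |(NumberField.discr K : ℝ)| ^ (1 / (Module.finrank ℚ K : ℝ))

/-- the elements of absolute height at most `B` -/
def El (B : ℝ) : Set K := {c | Height.logHeight₁ c ≤ Module.finrank ℚ K * Real.log B}

/-- the exceptional elements -/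
def Exc (κ B : ℝ) : Set K := {c ∈ El K B | ¬ PushesAway κ c}

end Defs

open Pool.Agent.Y733.UD Pool.Agent.Y733.LS Pool.Agent.Y733.DYN Pool.Agent.W223.AK
open Pool.Agent.Y733.HEN Pool.Agent.H691R3

section Aux

variable {K : Type} [Field K] [NumberField K]

theorem n_pos : (0 : ℝ) < Module.finrank ℚ K := by
  linarith [finrank_one_le K]

theorem rootDisc_eq : rootDisc K = Real.exp (rd K) := by
  unfold rootDisc rd
  have h : (0 : ℝ) < |(NumberField.discr K : ℝ)| := by linarith [one_le_disc K]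
  rw [Real.rpow_def_of_pos h]
  congr 1
  ring

theorem map_eq (L : Type) [Field L] [NumberField L] [Algebra K L] (F : K[X]) :
    (fun y : L => aeval y F) = polL L F := by
  funext y
  unfold polL
  rw [eval_map_algebraMap]

theorem push_of {κ : ℝ} {c : K} (hP : PolP κ c) : PushesAway κ c := by
  intro F hd hF T hT L _ _ _ hL x k
  have hn := n_pos (K := K)
  have hm : (0 : ℝ) < Module.finrank ℚ L := n_pos (K := L)
  have e1 : (Module.finrank ℚ L : ℝ) = Module.finrank ℚ K * Module.finrank K L := by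
    exact_mod_cast (Module.finrank_mul_finrank ℚ K L).symm
  have h1 := hP F hd hF T (fun v hv => hT v hv) L hL x k
  rw [map_eq]
  unfold h logNorm
  rw [le_div_iff₀ hm, e1, ht_log, ht_log]
  refine le_trans (le_of_eq ?_) h1
  have e3 : ∑ v ∈ T, Real.log (Ideal.absNorm v.asIdeal : ℝ) = ∑ v ∈ T, Real.log (Nv v) := rfl
  rw [e3]
  field_simp

theorem ncard_le {α : Type} {S : Set α} {b : ℝ}
    (h : ∀ E : Finset α, (E : Set α) ⊆ S → (E.card : ℝ) ≤ b) : S.Finite ∧ (S.ncard : ℝ) ≤ b := by
  have hfin : S.Finite := by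
    by_contra hinf
    obtain ⟨t, ht, hcard⟩ := Set.Infinite.exists_subset_card_eq hinf (⌊b⌋₊ + 1)
    have h1 := h t ht
    rw [hcard] at h1
    have h2 := Nat.lt_floor_add_one b
    push_cast at h1
    linarith
  refine ⟨hfin, ?_⟩
  have h1 := h hfin.toFinset (by simp)
  rwa [← Set.ncard_eq_toFinset_card S hfin] at h1

theorem le_ncard {α : Type} {S : Set α} (hS : S.Finite) {b : ℝ} {E : Finset α}
    (hE : (E : Set α) ⊆ S) (h : b ≤ E.card) : b ≤ (S.ncard : ℝ) := by
  refine h.trans ?_
  rw [← Set.ncard_coe_finset]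
  exact_mod_cast Set.ncard_le_ncard hE hS

theorem pow_form {n : ℕ} {C B Q α β : ℝ} (hC : 0 < C) (hB : 0 < B) (hQ : 0 < Q) :
    (C * B ^ α * Q ^ β) ^ n = Real.exp (n * (Real.log C + α * Real.log B + β * Real.log Q)) := by
  rw [Real.exp_nat_mul, Real.exp_add, Real.exp_add, Real.exp_log hC, Real.rpow_def_of_pos hB,
    Real.rpow_def_of_pos hQ, mul_comm α, mul_comm β]

theorem fin_El (B : ℝ) : (El K B).Finite :=
  NumberField.finite_setOfPred_logHeight₁_le (K := K) (Module.finrank ℚ K * Real.log B)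

theorem exc_le_el (κ B : ℝ) : ((Exc K κ B).ncard : ℝ) ≤ ((El K B).ncard : ℝ) := by
  have h : Exc K κ B ⊆ El K B := fun x hx => hx.1
  exact_mod_cast Set.ncard_le_ncard h (fin_El B)

theorem sqrt_rootDisc : √(rootDisc K) = Real.exp (rd K / 2) := by
  rw [rootDisc_eq, Real.exp_half]

end Aux

/-- logarithmic form of the count -/
theorem exc_log {κ ε : ℝ} (hκ0 : 0 < κ) (hκ : κ < 1) (hε : 0 < ε) :
    ∃ A : ℝ, 0 ≤ A ∧ ∀ (K : Type) [Field K] [NumberField K] (B : ℝ), 1 ≤ B →
      ((Exc K κ B).ncard : ℝ) ≤ Real.exp (Module.finrank ℚ K *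
        (A + (2 - (1 - κ) / 2 + ε) * Real.log B)) := by
  obtain ⟨κ', A, h1, h2, hA, h3⟩ := gd_card hκ0.le hκ hε
  refine ⟨A, hA, ?_⟩
  intro K _ _ B hB
  refine (ncard_le fun E hE => ?_).2
  refine (h3 K (Module.finrank ℚ K * Real.log B) E
    (mul_nonneg n_pos.le (Real.log_nonneg hB)) ?_).trans (le_of_eq (by congr 1; ring))
  intro c hc
  obtain ⟨h4, h5⟩ := hE (Finset.mem_coe.2 hc)
  refine ⟨?_, ?_⟩
  · rw [← ht_log]
    exact h4
  · rintro ⟨h6, h7⟩
    apply h5
    exact push_of (pol_of h1 c h6 h7)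

/-- logarithmic form of the lower bound for the number of all elements -/
theorem el_log {ε : ℝ} (hε : 0 < ε) : ∃ A : ℝ, 0 ≤ A ∧
    ∀ (K : Type) [Field K] [NumberField K] (B : ℝ), 8 * √(rootDisc K) ≤ B →
      Real.exp (Module.finrank ℚ K * ((2 - ε) * Real.log B - (2 + ε) * rd K - A)) ≤
        ((El K B).ncard : ℝ) := by
  set ε1 : ℝ := min (ε / 4) 1 with hε1
  have h1 : 0 < ε1 := lt_min (by positivity) one_pos
  have h2 : ε1 ≤ 1 := min_le_right _ _
  have h3 : 4 * ε1 ≤ ε := by
    have := min_le_left (ε / 4) 1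
    rw [← hε1] at this
    linarith
  obtain ⟨A, hA, h⟩ := low_count h1 h2
  refine ⟨A, hA, ?_⟩
  intro K _ _ B hBK
  have hrd := rd_nonneg K
  have hl8 : 0 ≤ Real.log 8 := Real.log_nonneg (by norm_num)
  have hl : Real.log 8 + rd K / 2 ≤ Real.log B := by
    rw [sqrt_rootDisc] at hBK
    have h1 := Real.log_le_log (by positivity) hBK
    rwa [Real.log_mul (by norm_num) (Real.exp_pos _).ne', Real.log_exp] at h1
  obtain ⟨E, hE, hcard⟩ := h K (Real.log B) hl
  have h4 : Real.exp (Module.finrank ℚ K * ((2 - ε) * Real.log B - (2 + ε) * rd K - A)) ≤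
      E.card := by
    refine le_trans (Real.exp_le_exp.2 (mul_le_mul_of_nonneg_left ?_ n_pos.le)) hcard
    have h5 : (2 - ε) * Real.log B ≤ (2 - 4 * ε1) * Real.log B :=
      mul_le_mul_of_nonneg_right (by linarith) (by linarith)
    have h6 : (2 + ε1) * rd K ≤ (2 + ε) * rd K := mul_le_mul_of_nonneg_right (by linarith) hrd
    linarith
  refine le_ncard (fin_El B) (fun c hc => ?_) h4
  show Height.logHeight₁ c ≤ _
  rw [ht_log]
  exact (hE c (Finset.mem_coe.1 hc)).2

/-- the number of exceptional elements -/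
theorem part_one (κ ε : ℝ) (hκ0 : 0 < κ) (hκ : κ < 1) (hε : 0 < ε) :
    ∃ C : ℝ, 0 < C ∧ ∀ (K : Type) [Field K] [NumberField K] (B : ℝ), 1 ≤ B →
      (El K B).Finite ∧ ((Exc K κ B).ncard : ℝ) ≤
        (C * B ^ (2 - (1 - κ) / 2 + ε)) ^ Module.finrank ℚ K := by
  obtain ⟨A, hA, h⟩ := exc_log hκ0 hκ hε
  refine ⟨Real.exp A, Real.exp_pos _, ?_⟩
  intro K _ _ B hB
  have hB0 : 0 < B := by linarith
  refine ⟨fin_El B, (h K B hB).trans (le_of_eq ?_)⟩
  rw [Real.rpow_def_of_pos hB0, ← Real.exp_add, ← Real.exp_nat_mul]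
  congr 2
  ring

/-- their proportion, logarithmic form -/
theorem prop_log {κ ε : ℝ} (hκ0 : 0 < κ) (hκ : κ < 1) (hε : 0 < ε) :
    ∃ A : ℝ, 0 ≤ A ∧ ∀ (K : Type) [Field K] [NumberField K] (B : ℝ), 1 ≤ B →
      ((Exc K κ B).ncard : ℝ) ≤ Real.exp (Module.finrank ℚ K *
        (A + (-((1 - κ) / 2) + ε) * Real.log B + (2 + ε) * rd K)) *
          ((El K B).ncard : ℝ) := by
  obtain ⟨A1, hA1, h1⟩ := exc_log hκ0 hκ (half_pos hε)
  obtain ⟨A2, hA2, h2⟩ := el_log (half_pos hε)
  have hl8 : 0 ≤ Real.log 8 := Real.log_nonneg (by norm_num)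
  refine ⟨A1 + A2 + Real.log 8, by positivity, ?_⟩
  intro K _ _ B hB
  have hB0 : 0 < B := by linarith
  have hlB : 0 ≤ Real.log B := Real.log_nonneg hB
  have hn := n_pos (K := K)
  have hrd := rd_nonneg K
  rcases le_or_gt (8 * √(rootDisc K)) B with hBK | hBK
  · refine (h1 K B hB).trans ?_
    refine le_trans ?_ (mul_le_mul_of_nonneg_left (h2 K B hBK) (Real.exp_pos _).le)
    rw [← Real.exp_add]
    apply Real.exp_le_exp.2
    rw [← mul_add]
    apply mul_le_mul_of_nonneg_left _ hn.le
    nlinarith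
  · have h7 : Real.log B < Real.log 8 + rd K / 2 := by
      rw [sqrt_rootDisc] at hBK
      have h1 := Real.log_lt_log hB0 hBK
      rwa [Real.log_mul (by norm_num) (Real.exp_pos _).ne', Real.log_exp] at h1
    refine le_trans (exc_le_el _ B) ?_
    refine le_mul_of_one_le_left (Nat.cast_nonneg _) (Real.one_le_exp ?_)
    apply mul_nonneg hn.le
    have h10 : -(1 * Real.log B) ≤ (-((1 - κ) / 2) + ε) * Real.log B := by nlinarith
    have h11 : 2 * rd K ≤ (2 + ε) * rd K := mul_le_mul_of_nonneg_right (by linarith) hrd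
    linarith

theorem part_two (κ ε : ℝ) (hκ0 : 0 < κ) (hκ : κ < 1) (hε : 0 < ε) :
    ∃ C : ℝ, 0 < C ∧ ∀ (K : Type) [Field K] [NumberField K] (B : ℝ), 1 ≤ B →
      ((Exc K κ B).ncard : ℝ) ≤
        (C * B ^ (-((1 - κ) / 2) + ε) * rootDisc K ^ (2 + ε)) ^ Module.finrank ℚ K *
          ((El K B).ncard : ℝ) := by
  obtain ⟨A, hA, h⟩ := prop_log hκ0 hκ hε
  refine ⟨Real.exp A, Real.exp_pos _, ?_⟩
  intro K _ _ B hB
  have hB0 : 0 < B := by linarith
  have hδ : 0 < rootDisc K := by rw [rootDisc_eq]; exact Real.exp_pos _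
  rw [pow_form (Real.exp_pos _) hB0 hδ, Real.log_exp, rootDisc_eq, Real.log_exp]
  exact h K B hB

/-- a simple form -/
theorem part_three : ∃ B0 : ℝ, 0 < B0 ∧
    ∀ (K : Type) [Field K] [NumberField K] (B : ℝ), B0 * rootDisc K ^ 33 ≤ B →
      ((Exc K (1 / 2) B).ncard : ℝ) ≤
        (B ^ (-(1 / 8) : ℝ)) ^ Module.finrank ℚ K * ((El K B).ncard : ℝ) := by
  obtain ⟨A, hA, h⟩ := prop_log (κ := 1 / 2) (ε := 1 / 16) (by norm_num) (by norm_num)
    (by norm_num)
  refine ⟨Real.exp (16 * A), Real.exp_pos _, ?_⟩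
  intro K _ _ B hB
  have hn := n_pos (K := K)
  have hrd := rd_nonneg K
  have e23 : rootDisc K ^ 33 = Real.exp (33 * rd K) := by
    rw [rootDisc_eq, ← Real.exp_nat_mul]
    norm_num
  rw [e23, ← Real.exp_add] at hB
  have hB0 : 0 < B := lt_of_lt_of_le (Real.exp_pos _) hB
  have hlB : 16 * A + 33 * rd K ≤ Real.log B := by
    rwa [Real.le_log_iff_exp_le hB0]
  have hB1 : 1 ≤ B := le_trans (Real.one_le_exp (by positivity)) hB
  have h1 := h K B hB1
  refine h1.trans (mul_le_mul_of_nonneg_right ?_ (Nat.cast_nonneg _))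
  rw [Real.rpow_def_of_pos hB0, ← Real.exp_nat_mul]
  apply Real.exp_le_exp.2
  apply mul_le_mul_of_nonneg_left _ hn.le
  nlinarith

/-- the number of all elements -/
theorem part_four (ε : ℝ) (hε : 0 < ε) : ∃ C : ℝ, 0 < C ∧
    ∀ (K : Type) [Field K] [NumberField K] (B : ℝ), 8 * √(rootDisc K) ≤ B →
      (C⁻¹ * B ^ (2 - ε) * rootDisc K ^ (-(2 + ε))) ^ Module.finrank ℚ K ≤
        ((El K B).ncard : ℝ) := by
  obtain ⟨A, hA, h⟩ := el_log hε
  refine ⟨Real.exp A, Real.exp_pos _, ?_⟩
  intro K _ _ B hBK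
  have hB : 0 < B := by
    have h1 := hBK
    rw [sqrt_rootDisc] at h1
    have : 0 < 8 * Real.exp (rd K / 2) := by positivity
    linarith
  have hδ : 0 < rootDisc K := by rw [rootDisc_eq]; exact Real.exp_pos _
  rw [pow_form (by positivity) hB hδ, Real.log_inv, Real.log_exp, rootDisc_eq, Real.log_exp]
  refine le_trans (le_of_eq ?_) (h K B hBK)
  congr 1
  ring

/-- no preperiodic points -/
theorem part_five {K : Type} [Field K] [NumberField K] {κ : ℝ} {c : K}
    (hc : PushesAway κ c) (F : K[X]) (hd : 2 ≤ F.natDegree) (hF : F.coeff 0 = c)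
    (T : Finset (HeightOneSpectrum (𝓞 K))) (hT : ContainsBad F T)
    (hs : logNorm T < κ * (1 + h c)) (L : Type) [Field L] [NumberField L]
    [Algebra K L] (hL : Module.finrank K L < F.natDegree) (x : L) (m l : ℕ) (hml : m < l) :
    (fun y : L => aeval y F)^[m] x ≠ (fun y : L => aeval y F)^[l] x := by
  intro heq
  set f : L → L := fun y : L => aeval y F with hf
  obtain ⟨p, hp, hp0⟩ : ∃ p, m + p = l ∧ 1 ≤ p := ⟨l - m, by omega, by omega⟩
  set y := f^[m] x with hy
  have hper : f^[p] y = y := by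
    rw [hy, ← Function.iterate_add_apply, show p + m = l by omega, ← heq]
  have hperj : ∀ j : ℕ, f^[p * j] y = y := by
    intro j
    rw [Function.iterate_mul]
    induction j with
    | zero => rfl
    | succ j ih => rw [Function.iterate_succ', Function.comp_apply, ih, hper]
  have ht : 0 < κ * (1 + h c) - logNorm T := by linarith
  obtain ⟨j, hj⟩ := pow_unbounded_of_one_lt
    (h y / (κ * (1 + h c) - logNorm T)) (one_lt_two)
  have h1 := hc F hd hF T hT L hL y (p * (j + 1) - 1)
  have e1 : p * (j + 1) - 1 + 1 = p * (j + 1) := by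
    have : 1 ≤ p * (j + 1) := Nat.mul_pos hp0 (Nat.succ_pos j)
    omega
  rw [e1, ← hf, hperj (j + 1)] at h1
  have h2 : j ≤ p * (j + 1) - 1 := by
    have : j + 1 ≤ p * (j + 1) := Nat.le_mul_of_pos_left _ hp0
    omega
  have h3 : (2 : ℝ) ^ j ≤ (F.natDegree : ℝ) ^ (p * (j + 1) - 1) := by
    have hd' : (2 : ℝ) ≤ F.natDegree := by exact_mod_cast hd
    calc (2 : ℝ) ^ j ≤ (F.natDegree : ℝ) ^ j := pow_le_pow_left₀ (by norm_num) hd' _
      _ ≤ _ := pow_le_pow_right₀ (by linarith) h2
  rw [div_lt_iff₀ ht] at hj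
  have h5 := mul_le_mul_of_nonneg_right h3 ht.le
  linarith

/-- **Main theorem.** All constants are absolute: they do not depend on `K` or on its degree `n`.
(1) For `0 < κ < 1` and `ε > 0` there is `C` such that, over every number field `K` and for every
`B ≥ 1`, at most `(C * B ^ (2 - (1 - κ) / 2 + ε)) ^ n` of the elements `c ∈ K` of height at most `B`
do not have the property `PushesAway κ`.
(2) This is at most the proportion `(C * B ^ (-(1 - κ) / 2 + ε) * δ_K ^ (2 + ε)) ^ n` of them.
(3) In particular `PushesAway (1 / 2)` holds for all but a proportion `B ^ (-n / 8)` of them, over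
every number field and for all `B ≥ B0 * δ_K ^ 33`.
(4) For `B ≥ 8 * √δ_K`, their number is at least `(B ^ (2 - ε) / (C * δ_K ^ (2 + ε))) ^ n`.
(5) If `c` has the property `PushesAway κ`, then no polynomial over `K` of degree `d ≥ 2` with
constant term `c`, whose other coefficients have bad primes in `T` with
`logNorm T < κ (1 + h(c))`, has a preperiodic point of degree less than `d` over `K`. -/
theorem result :
    (∀ (κ ε : ℝ), 0 < κ → κ < 1 → 0 < ε → ∃ C : ℝ, 0 < C ∧
      ∀ (K : Type) [Field K] [NumberField K] (B : ℝ), 1 ≤ B →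
        (El K B).Finite ∧ ((Exc K κ B).ncard : ℝ) ≤
          (C * B ^ (2 - (1 - κ) / 2 + ε)) ^ Module.finrank ℚ K) ∧
    (∀ (κ ε : ℝ), 0 < κ → κ < 1 → 0 < ε → ∃ C : ℝ, 0 < C ∧
      ∀ (K : Type) [Field K] [NumberField K] (B : ℝ), 1 ≤ B →
        ((Exc K κ B).ncard : ℝ) ≤
          (C * B ^ (-((1 - κ) / 2) + ε) * rootDisc K ^ (2 + ε)) ^ Module.finrank ℚ K *
            ((El K B).ncard : ℝ)) ∧
    (∃ B0 : ℝ, 0 < B0 ∧
      ∀ (K : Type) [Field K] [NumberField K] (B : ℝ), B0 * rootDisc K ^ 33 ≤ B →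
        ((Exc K (1 / 2) B).ncard : ℝ) ≤
          (B ^ (-(1 / 8) : ℝ)) ^ Module.finrank ℚ K * ((El K B).ncard : ℝ)) ∧
    (∀ ε : ℝ, 0 < ε → ∃ C : ℝ, 0 < C ∧
      ∀ (K : Type) [Field K] [NumberField K] (B : ℝ), 8 * √(rootDisc K) ≤ B →
        (C⁻¹ * B ^ (2 - ε) * rootDisc K ^ (-(2 + ε))) ^ Module.finrank ℚ K ≤
          ((El K B).ncard : ℝ)) ∧
    (∀ (K : Type) [Field K] [NumberField K] (κ : ℝ) (c : K), PushesAway κ c →
      ∀ F : K[X], 2 ≤ F.natDegree → F.coeff 0 = c →
        ∀ T : Finset (HeightOneSpectrum (𝓞 K)), ContainsBad F T → logNorm T < κ * (1 + h c) →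
        ∀ (L : Type) [Field L] [NumberField L] [Algebra K L], Module.finrank K L < F.natDegree →
          ∀ (x : L) (m l : ℕ), m < l →
            (fun y : L => aeval y F)^[m] x ≠ (fun y : L => aeval y F)^[l] x) :=
  ⟨part_one, part_two, part_three, part_four,
    fun _ _ _ _ _ hc F hd hF T hT hs L _ _ _ hL x m l hml =>
      part_five hc F hd hF T hT hs L hL x m l hml⟩

end Pool.Agent.Results.MP_13bc7b_nt.AllFieldsPolynomials
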