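import Mathlib
import Pool.Agent.Y733.DYN.Cnt

/-!
# Translates of all integral maps with good reduction: no preperiodic points, over all number
# fields of all degrees

All constants below are absolute: they do not depend on the number field `K` nor on its degree `n`.

Let `G : 𝔸^N → 𝔸^N` be a polynomial map of degree `d ≥ 2` over the ring of integers of `K` which
has good reduction everywhere (it extends to an endomorphism of `ℙ^N` over `𝓞 K`; for example
`G_i = x_i ^ d + P_i` with integral polynomials `P_i` of smaller degree). For `c ∈ K ^ N` consider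
the endomorphism `F(x) = G(x) + c` of `ℙ^N`.

For all `c ∈ K ^ N` with coordinates of height at most `B`, outside a set of at most
`(C * B ^ (2 N - (1 - κ) / (N + 1) + ε)) ^ n` vectors, the following holds for all degrees `d ≥ 2`,
all `G` as above, all extensions `L` of `K` of degree less than `d` and all points `x` of `L ^ N`:
the absolute height of the iterate `F^(k+1) (x)` is at least `κ d ^ k (1 + max h(c_i))`. In
particular there are no preperiodic points of degree less than `d` over `K` in the affine space,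
and the canonical height of these points is at least `(κ / d) (1 + max h(c_i))`.

Proof: let `v` be a prime of `K` where `c` has a simple pole, and `w` a prime of `L` above `v`. Then
`|c|_w` is smaller than the `d`-th power of every value larger than `1`, so that
`|F(x)|_w ≥ |c|_w` for all `x`, and `|F(x)|_w = |x|_w ^ d` if `|x|_w > 1`. For most `c` the simple
poles give nearly all of the height, since an element of `K` is determined by its numerator and
denominator and by a unit, and the counts of ideals and of units are uniform in all number fields.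
-/

set_option autoImplicit false
set_option linter.unusedSectionVars false

namespace Pool.Agent.Results.MP_13bc7b_nt.AllFieldsTranslates

open NumberField MvPolynomial

section Defs

/-- the absolute logarithmic height of the point `(1 : x_1 : ... : x_N)` -/
noncomputable def height {L : Type} [Field L] [NumberField L] {N : ℕ} (x : Fin N → L) : ℝ :=
  Height.logHeight (Fin.cons 1 x : Fin (N + 1) → L) / Module.finrank ℚ L

/-- `G` is a polynomial self-map of the affine space, of degree at most `d`, over the ring `R`,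
and its forms of degree `d` have no common zero except `0` in any field to which `R` is mapped;
that is, `G` extends to an endomorphism of degree `d` of the projective space over `R`. -/
def GoodReduction {R : Type} [CommRing R] (d : ℕ) {N : ℕ}
    (G : Fin N → MvPolynomial (Fin N) R) : Prop :=
  (∀ i, (G i).totalDegree ≤ d) ∧
    ∀ (k : Type) [Field k] (φ : R →+* k) (x : Fin N → k),
      (∀ i, eval₂ φ x (homogeneousComponent d (G i)) = 0) → x = 0

variable {K : Type} [Field K] [NumberField K]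

/-- the self-map `x ↦ G(x) + c` of `L ^ N` -/
noncomputable def translate (L : Type) [Field L] [NumberField L] [Algebra K L] {N : ℕ}
    (G : Fin N → MvPolynomial (Fin N) (𝓞 K)) (c : Fin N → K) (x : Fin N → L) : Fin N → L :=
  fun i => eval₂ (algebraMap (𝓞 K) L) x (G i) + algebraMap K L (c i)

/-- for every `G` with good reduction, of any degree `d ≥ 2`, the translate by `c` pushes all
points of degree less than `d` over `K` away -/
def PushesAway (κ : ℝ) {N : ℕ} (c : Fin N → K) : Prop :=
  ∀ (d : ℕ) (G : Fin N → MvPolynomial (Fin N) (𝓞 K)), 2 ≤ d → GoodReduction d G →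
    ∀ (L : Type) [Field L] [NumberField L] [Algebra K L], Module.finrank K L < d →
      ∀ (x : Fin N → L) (k : ℕ) (i : Fin N),
        κ * d ^ k * (1 + Height.logHeight₁ (c i) / Module.finrank ℚ K) ≤
          height ((translate L G c)^[k + 1] x)

variable (K)

/-- the root discriminant -/
noncomputable def rootDisc : ℝ :=
  |(NumberField.discr K : ℝ)| ^ (1 / (Module.finrank ℚ K : ℝ))

/-- the vectors whose coordinates have absolute height at most `B` -/
def Box (N : ℕ) (B : ℝ) : Set (Fin N → K) :=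
  {c | ∀ i, Height.logHeight₁ (c i) ≤ Module.finrank ℚ K * Real.log B}

/-- the exceptional vectors -/
def Exc (N : ℕ) (κ B : ℝ) : Set (Fin N → K) := {c ∈ Box K N B | ¬ PushesAway κ c}

end Defs

open Pool.Agent.Y733.UD Pool.Agent.Y733.LS Pool.Agent.Y733.DYN Pool.Agent.W223.AK
open Pool.Agent.H691R3

section Aux

variable {K : Type} [Field K] [NumberField K]

theorem n_pos : (0 : ℝ) < Module.finrank ℚ K := by
  linarith [finrank_one_le K]

theorem rootDisc_eq : rootDisc K = Real.exp (rd K) := by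
  unfold rootDisc rd
  have h : (0 : ℝ) < |(NumberField.discr K : ℝ)| := by linarith [one_le_disc K]
  rw [Real.rpow_def_of_pos h]
  congr 1
  ring

theorem push_iff {N : ℕ} (κ : ℝ) (c : Fin N → K) : PushesAway κ c ↔ RepP κ c := by
  have hn := n_pos (K := K)
  unfold PushesAway RepP
  refine forall_congr' fun d => forall_congr' fun G => forall_congr' fun hd =>
    forall_congr' fun hG => forall_congr' fun L => ?_
  have key : ∀ [Field L] [NumberField L] [Algebra K L] (x : Fin N → L) (k : ℕ) (i : Fin N),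
      (κ * d ^ k * (1 + Height.logHeight₁ (c i) / Module.finrank ℚ K) ≤
          height ((translate L G c)^[k + 1] x)) ↔
        (d : ℝ) ^ k * (Module.finrank K L * (κ * (Module.finrank ℚ K + ht (c i)))) ≤
          Height.logHeight (Fin.cons 1 ((dyn L G c)^[k + 1] x) : Fin (N + 1) → L) := by
    intro _ _ _ x k i
    have hm : (0 : ℝ) < Module.finrank ℚ L := n_pos (K := L)
    have e1 : (Module.finrank ℚ L : ℝ) = Module.finrank ℚ K * Module.finrank K L := by
      exact_mod_cast (Module.finrank_mul_finrank ℚ K L).symm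
    rw [ht_log]
    unfold height
    rw [le_div_iff₀ hm, e1]
    have e2 : κ * (d : ℝ) ^ k * (1 + ht (c i) / Module.finrank ℚ K) *
        (Module.finrank ℚ K * Module.finrank K L) =
        (d : ℝ) ^ k * (Module.finrank K L * (κ * (Module.finrank ℚ K + ht (c i)))) := by
      field_simp
    rw [e2]
    rfl
  constructor
  · intro h _ _ _ hL x k i
    exact (key x k i).1 (h hL x k i)
  · intro h _ _ _ hL x k i
    exact (key x k i).2 (h hL x k i)

theorem ncard_le {α : Type} {S : Set α} {b : ℝ}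
    (h : ∀ E : Finset α, (E : Set α) ⊆ S → (E.card : ℝ) ≤ b) : S.Finite ∧ (S.ncard : ℝ) ≤ b := by
  have hfin : S.Finite := by
    by_contra hinf
    obtain ⟨t, ht, hcard⟩ := Set.Infinite.exists_subset_card_eq hinf (⌊b⌋₊ + 1)
    have h1 := h t ht
    rw [hcard] at h1
    have h2 := Nat.lt_floor_add_one b
    push_cast at h1
    linarith
  refine ⟨hfin, ?_⟩
  have h1 := h hfin.toFinset (by simp)
  rwa [← Set.ncard_eq_toFinset_card S hfin] at h1

theorem le_ncard {α : Type} {S : Set α} (hS : S.Finite) {b : ℝ} {E : Finset α}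
    (hE : (E : Set α) ⊆ S) (h : b ≤ E.card) : b ≤ (S.ncard : ℝ) := by
  refine h.trans ?_
  rw [← Set.ncard_coe_finset]
  exact_mod_cast Set.ncard_le_ncard hE hS

theorem pow_form {n : ℕ} {C B Q α β : ℝ} (hC : 0 < C) (hB : 0 < B) (hQ : 0 < Q) :
    (C * B ^ α * Q ^ β) ^ n = Real.exp (n * (Real.log C + α * Real.log B + β * Real.log Q)) := by
  rw [Real.exp_nat_mul, Real.exp_add, Real.exp_add, Real.exp_log hC, Real.rpow_def_of_pos hB,
    Real.rpow_def_of_pos hQ, mul_comm α, mul_comm β]

theorem fin_Box (N : ℕ) (B : ℝ) : (Box K N B).Finite := by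
  have h := NumberField.finite_setOfPred_logHeight₁_le (K := K)
    (Module.finrank ℚ K * Real.log B)
  refine (Set.Finite.pi' fun _ : Fin N => h).subset ?_
  intro c hc i
  exact hc i

theorem exc_le_box (N : ℕ) (κ B : ℝ) :
    ((Exc K N κ B).ncard : ℝ) ≤ ((Box K N B).ncard : ℝ) := by
  have h : Exc K N κ B ⊆ Box K N B := fun x hx => hx.1
  exact_mod_cast Set.ncard_le_ncard h (fin_Box N B)

theorem sqrt_rootDisc : √(rootDisc K) = Real.exp (rd K / 2) := by
  rw [rootDisc_eq, Real.exp_half]

end Aux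

/-- logarithmic form of the count -/
theorem exc_log {N : ℕ} {κ ε : ℝ} (hN : 1 ≤ N) (hκ0 : 0 < κ) (hκ : κ < 1) (hε : 0 < ε) :
    ∃ A : ℝ, 0 ≤ A ∧ ∀ (K : Type) [Field K] [NumberField K] (B : ℝ), 1 ≤ B →
      ((Exc K N κ B).ncard : ℝ) ≤ Real.exp (Module.finrank ℚ K *
        (A + (2 * N - (1 - κ) / (N + 1) + ε) * Real.log B)) := by
  obtain ⟨A, hA, h⟩ := exc_card hN hκ0.le hκ hε
  refine ⟨A, hA, ?_⟩
  intro K _ _ B hB
  refine (ncard_le fun E hE => ?_).2
  refine (h K (Module.finrank ℚ K * Real.log B) E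
    (mul_nonneg n_pos.le (Real.log_nonneg hB)) ?_).trans (le_of_eq (by congr 1; ring))
  intro c hc
  obtain ⟨h1, h2⟩ := hE (Finset.mem_coe.2 hc)
  refine ⟨fun i => ?_, ?_⟩
  · rw [← ht_log]
    exact h1 i
  · rwa [push_iff] at h2

/-- logarithmic form of the lower bound for the number of all vectors -/
theorem box_log {ε : ℝ} (N : ℕ) (hε : 0 < ε) : ∃ A : ℝ, 0 ≤ A ∧
    ∀ (K : Type) [Field K] [NumberField K] (B : ℝ), 8 * √(rootDisc K) ≤ B →
      Real.exp (Module.finrank ℚ K * ((2 * N - ε) * Real.log B - (2 * N + ε) * rd K - A)) ≤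
        ((Box K N B).ncard : ℝ) := by
  obtain ⟨A, hA, h⟩ := box_card_low (N := N) hε
  refine ⟨A, hA, ?_⟩
  intro K _ _ B hBK
  have hl : Real.log 8 + rd K / 2 ≤ Real.log B := by
    rw [sqrt_rootDisc] at hBK
    have h1 := Real.log_le_log (by positivity) hBK
    rwa [Real.log_mul (by norm_num) (Real.exp_pos _).ne', Real.log_exp] at h1
  obtain ⟨E, hE, hcard⟩ := h K (Real.log B) hl
  refine le_ncard (fin_Box N B) (fun c hc i => ?_) hcard
  rw [ht_log]
  exact hE c (Finset.mem_coe.1 hc) i

/-- the number of exceptional vectors -/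
theorem part_one (N : ℕ) (κ ε : ℝ) (hN : 1 ≤ N) (hκ0 : 0 < κ) (hκ : κ < 1) (hε : 0 < ε) :
    ∃ C : ℝ, 0 < C ∧ ∀ (K : Type) [Field K] [NumberField K] (B : ℝ), 1 ≤ B →
      (Box K N B).Finite ∧ ((Exc K N κ B).ncard : ℝ) ≤
        (C * B ^ (2 * N - (1 - κ) / (N + 1) + ε)) ^ Module.finrank ℚ K := by
  obtain ⟨A, hA, h⟩ := exc_log hN hκ0 hκ hε
  refine ⟨Real.exp A, Real.exp_pos _, ?_⟩
  intro K _ _ B hB
  have hB0 : 0 < B := by linarith
  refine ⟨fin_Box N B, (h K B hB).trans (le_of_eq ?_)⟩
  rw [Real.rpow_def_of_pos hB0, ← Real.exp_add, ← Real.exp_nat_mul]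
  congr 2
  ring

/-- their proportion, logarithmic form -/
theorem prop_log {N : ℕ} {κ ε : ℝ} (hN : 1 ≤ N) (hκ0 : 0 < κ) (hκ : κ < 1) (hε : 0 < ε) :
    ∃ A : ℝ, 0 ≤ A ∧ ∀ (K : Type) [Field K] [NumberField K] (B : ℝ), 1 ≤ B →
      ((Exc K N κ B).ncard : ℝ) ≤ Real.exp (Module.finrank ℚ K *
        (A + (-((1 - κ) / (N + 1)) + ε) * Real.log B + (2 * N + ε) * rd K)) *
          ((Box K N B).ncard : ℝ) := by
  obtain ⟨A1, hA1, h1⟩ := exc_log hN hκ0 hκ (half_pos hε)
  obtain ⟨A2, hA2, h2⟩ := box_log N (half_pos hε)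
  have hl8 : 0 ≤ Real.log 8 := Real.log_nonneg (by norm_num)
  refine ⟨A1 + A2 + Real.log 8, by positivity, ?_⟩
  intro K _ _ B hB
  have hB0 : 0 < B := by linarith
  have hlB : 0 ≤ Real.log B := Real.log_nonneg hB
  have hn := n_pos (K := K)
  have hrd := rd_nonneg K
  rcases le_or_gt (8 * √(rootDisc K)) B with hBK | hBK
  · refine (h1 K B hB).trans ?_
    refine le_trans ?_ (mul_le_mul_of_nonneg_left (h2 K B hBK) (Real.exp_pos _).le)
    rw [← Real.exp_add]
    apply Real.exp_le_exp.2
    rw [← mul_add]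
    apply mul_le_mul_of_nonneg_left _ hn.le
    nlinarith
  · have h7 : Real.log B < Real.log 8 + rd K / 2 := by
      rw [sqrt_rootDisc] at hBK
      have h1 := Real.log_lt_log hB0 hBK
      rwa [Real.log_mul (by norm_num) (Real.exp_pos _).ne', Real.log_exp] at h1
    refine le_trans (exc_le_box _ _ B) ?_
    refine le_mul_of_one_le_left (Nat.cast_nonneg _) (Real.one_le_exp ?_)
    apply mul_nonneg hn.le
    have hNr : (1 : ℝ) ≤ N := by exact_mod_cast hN
    have h9 : (1 - κ) / ((N : ℝ) + 1) ≤ 1 := by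
      rw [div_le_one (by linarith)]
      linarith
    have h10 : -(1 * Real.log B) ≤ (-((1 - κ) / ((N : ℝ) + 1)) + ε) * Real.log B := by
      nlinarith
    have h11 : 2 * rd K ≤ (2 * (N : ℝ) + ε) * rd K :=
      mul_le_mul_of_nonneg_right (by linarith) hrd
    linarith

theorem part_two (N : ℕ) (κ ε : ℝ) (hN : 1 ≤ N) (hκ0 : 0 < κ) (hκ : κ < 1) (hε : 0 < ε) :
    ∃ C : ℝ, 0 < C ∧ ∀ (K : Type) [Field K] [NumberField K] (B : ℝ), 1 ≤ B →
      ((Exc K N κ B).ncard : ℝ) ≤
        (C * B ^ (-((1 - κ) / (N + 1)) + ε) * rootDisc K ^ (2 * N + ε)) ^ Module.finrank ℚ K *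
          ((Box K N B).ncard : ℝ) := by
  obtain ⟨A, hA, h⟩ := prop_log hN hκ0 hκ hε
  refine ⟨Real.exp A, Real.exp_pos _, ?_⟩
  intro K _ _ B hB
  have hB0 : 0 < B := by linarith
  have hδ : 0 < rootDisc K := by rw [rootDisc_eq]; exact Real.exp_pos _
  rw [pow_form (Real.exp_pos _) hB0 hδ, Real.log_exp, rootDisc_eq, Real.log_exp]
  exact h K B hB

/-- a simple form -/
theorem part_three (N : ℕ) (hN : 1 ≤ N) : ∃ B0 : ℝ, 0 < B0 ∧
    ∀ (K : Type) [Field K] [NumberField K] (B : ℝ), B0 * rootDisc K ^ (11 * (N + 1) ^ 2) ≤ B →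
      ((Exc K N (1 / 2) B).ncard : ℝ) ≤
        (B ^ (-(1 / (4 * (N + 1))) : ℝ)) ^ Module.finrank ℚ K * ((Box K N B).ncard : ℝ) := by
  have hNr : (1 : ℝ) ≤ N := by exact_mod_cast hN
  have hN1 : (0 : ℝ) < (N : ℝ) + 1 := by linarith
  set t : ℝ := 1 / ((N : ℝ) + 1) with ht
  have ht0 : 0 < t := by positivity
  have ht1 : t * ((N : ℝ) + 1) = 1 := by
    rw [ht]
    field_simp
  have ht2 : t ≤ 1 / 2 := by
    rw [ht]
    apply one_div_le_one_div_of_le (by norm_num)
    linarith
  obtain ⟨A, hA, h⟩ := prop_log (κ := 1 / 2) (ε := t / 16) hN (by norm_num) (by norm_num)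
    (by positivity)
  refine ⟨Real.exp (6 * (N + 1) * A), Real.exp_pos _, ?_⟩
  intro K _ _ B hB
  have hn := n_pos (K := K)
  have hrd := rd_nonneg K
  have e23 : rootDisc K ^ (11 * (N + 1) ^ 2) = Real.exp (11 * ((N : ℝ) + 1) ^ 2 * rd K) := by
    rw [rootDisc_eq, ← Real.exp_nat_mul]
    push_cast
    rfl
  rw [e23, ← Real.exp_add] at hB
  have hB0 : 0 < B := lt_of_lt_of_le (Real.exp_pos _) hB
  have hlB : 6 * ((N : ℝ) + 1) * A + 11 * ((N : ℝ) + 1) ^ 2 * rd K ≤ Real.log B := by
    rwa [Real.le_log_iff_exp_le hB0]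
  have hB1 : 1 ≤ B := le_trans (Real.one_le_exp (by positivity)) hB
  have h1 := h K B hB1
  refine h1.trans (mul_le_mul_of_nonneg_right ?_ (Nat.cast_nonneg _))
  rw [Real.rpow_def_of_pos hB0, ← Real.exp_nat_mul]
  apply Real.exp_le_exp.2
  apply mul_le_mul_of_nonneg_left _ hn.le
  have e3 : (1 - 1 / 2) / ((N : ℝ) + 1) = t / 2 := by
    rw [ht]
    ring
  have e4 : (1 : ℝ) / (4 * (N + 1)) = t / 4 := by
    rw [ht]
    field_simp
  rw [e3, e4]
  have h2 := mul_le_mul_of_nonneg_left hlB ht0.le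
  have e5 : t * (6 * ((N : ℝ) + 1) * A + 11 * ((N : ℝ) + 1) ^ 2 * rd K) =
      6 * A + 11 * ((N : ℝ) + 1) * rd K := by
    have : t * (6 * ((N : ℝ) + 1) * A + 11 * ((N : ℝ) + 1) ^ 2 * rd K) =
      (t * ((N : ℝ) + 1)) * (6 * A + 11 * ((N : ℝ) + 1) * rd K) := by ring
    rw [this, ht1, one_mul]
  rw [e5] at h2
  have h3 : (2 * (N : ℝ) + t / 16) * rd K ≤ (2 * ((N : ℝ) + 1)) * rd K :=
    mul_le_mul_of_nonneg_right (by linarith) hrd
  have h4 : 0 ≤ ((N : ℝ) + 1) * rd K := by positivity
  linarith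

/-- the number of all vectors -/
theorem part_four (N : ℕ) (ε : ℝ) (hε : 0 < ε) : ∃ C : ℝ, 0 < C ∧
    ∀ (K : Type) [Field K] [NumberField K] (B : ℝ), 8 * √(rootDisc K) ≤ B →
      (C⁻¹ * B ^ (2 * N - ε) * rootDisc K ^ (-(2 * N + ε))) ^ Module.finrank ℚ K ≤
        ((Box K N B).ncard : ℝ) := by
  obtain ⟨A, hA, h⟩ := box_log N hε
  refine ⟨Real.exp A, Real.exp_pos _, ?_⟩
  intro K _ _ B hBK
  have hB : 0 < B := by
    have h1 := hBK
    rw [sqrt_rootDisc] at h1
    have : 0 < 8 * Real.exp (rd K / 2) := by positivity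
    linarith
  have hδ : 0 < rootDisc K := by rw [rootDisc_eq]; exact Real.exp_pos _
  rw [pow_form (by positivity) hB hδ, Real.log_inv, Real.log_exp, rootDisc_eq, Real.log_exp]
  refine le_trans (le_of_eq ?_) (h K B hBK)
  congr 1
  ring

/-- no preperiodic points -/
theorem part_five {K : Type} [Field K] [NumberField K] {N : ℕ} (hN : 1 ≤ N) {κ : ℝ}
    (hκ : 0 < κ) {c : Fin N → K} (hc : PushesAway κ c) (d : ℕ)
    (G : Fin N → MvPolynomial (Fin N) (𝓞 K)) (hd : 2 ≤ d) (hG : GoodReduction d G)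
    (L : Type) [Field L] [NumberField L] [Algebra K L] (hL : Module.finrank K L < d)
    (x : Fin N → L) : Function.Injective fun k : ℕ => (translate L G c)^[k] x := by
  set f := translate L G c with hf
  have main : ∀ m n : ℕ, m < n → f^[m] x ≠ f^[n] x := by
    intro m n hmn heq
    set y := f^[m] x with hy
    set p := n - m with hp
    have hp1 : 1 ≤ p := by omega
    have hper : f^[p] y = y := by
      rw [hy, ← Function.iterate_add_apply, show p + m = n by omega, ← heq]
    have hper2 : ∀ j : ℕ, f^[p * j] y = y := by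
      intro j
      rw [Function.iterate_mul]
      induction j with
      | zero => rfl
      | succ j ih => rw [Function.iterate_succ', Function.comp_apply, ih, hper]
    obtain ⟨j, hj⟩ := pow_unbounded_of_one_lt (height y / κ) (one_lt_two)
    have h1 := hc d G hd hG L hL y (p * (j + 1) - 1) ⟨0, hN⟩
    have e1 : p * (j + 1) - 1 + 1 = p * (j + 1) := by
      have : 1 ≤ p * (j + 1) := Nat.mul_pos hp1 (Nat.succ_pos j)
      omega
    rw [e1, ← hf, hper2 (j + 1)] at h1
    have h2 : j ≤ p * (j + 1) - 1 := by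
      have : j + 1 ≤ p * (j + 1) := Nat.le_mul_of_pos_left _ hp1
      omega
    have h3 : (2 : ℝ) ^ j ≤ (d : ℝ) ^ (p * (j + 1) - 1) := by
      have hd' : (2 : ℝ) ≤ d := by exact_mod_cast hd
      calc (2 : ℝ) ^ j ≤ (d : ℝ) ^ j := pow_le_pow_left₀ (by norm_num) hd' _
        _ ≤ _ := pow_le_pow_right₀ (by linarith) h2
    have h4 : 0 ≤ Height.logHeight₁ (c ⟨0, hN⟩) / Module.finrank ℚ K :=
      div_nonneg (Height.zero_le_logHeight₁ _) n_pos.le
    rw [div_lt_iff₀ hκ] at hj
    have h5 : κ * 2 ^ j ≤ κ * (d : ℝ) ^ (p * (j + 1) - 1) :=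
      mul_le_mul_of_nonneg_left h3 hκ.le
    have h6 : 0 < κ * (d : ℝ) ^ (p * (j + 1) - 1) := lt_of_lt_of_le (by positivity) h5
    nlinarith
  intro m n h
  rcases lt_trichotomy m n with h1 | h1 | h1
  · exact absurd h (main m n h1)
  · exact h1
  · exact absurd h.symm (main n m h1)

/-- examples of maps with good reduction -/
theorem part_six {R : Type} [CommRing R] {N d : ℕ} (P : Fin N → MvPolynomial (Fin N) R)
    (hP : ∀ i, (P i).totalDegree < d) : GoodReduction d fun i => X i ^ d + P i := by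
  refine ⟨fun i => ?_, ?_⟩
  · refine (totalDegree_add _ _).trans (max_le ?_ (hP i).le)
    have h1 := (isHomogeneous_X_pow (R := R) i d).totalDegree_le
    exact h1
  · intro k _ φ x hx
    funext i
    have h1 := hx i
    have h2 : homogeneousComponent d (X i ^ d + P i) = (X i ^ d : MvPolynomial (Fin N) R) := by
      rw [map_add, homogeneousComponent_eq_zero _ _ (hP i), add_zero,
        homogeneousComponent_of_mem ((mem_homogeneousSubmodule d _).2 (isHomogeneous_X_pow i d)),
        if_pos rfl]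
    rw [h2, eval₂_pow, eval₂_X] at h1
    have h3 := hP i
    exact pow_eq_zero_iff (by omega) |>.1 h1

/-- **Main theorem.** All constants are absolute: they do not depend on `K` or on its degree `n`.
(1) For `N ≥ 1`, `0 < κ < 1` and `ε > 0` there is `C` such that, over every number field `K` and
for every `B ≥ 1`, at most `(C * B ^ (2 N - (1 - κ) / (N + 1) + ε)) ^ n` of the vectors `c ∈ K ^ N`
with coordinates of height at most `B` do not have the property `PushesAway κ`.
(2) This is at most the proportion `(C * B ^ (-(1 - κ) / (N + 1) + ε) * δ_K ^ (2 N + ε)) ^ n`.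
(3) In particular `PushesAway (1 / 2)` holds for all but a proportion `B ^ (-n / (4 (N + 1)))` of
them, over every number field and for all `B ≥ B0 * δ_K ^ (11 (N + 1) ^ 2)`.
(4) For `B ≥ 8 * √δ_K`, their number is at least `(B ^ (2 N - ε) / (C * δ_K ^ (2 N + ε))) ^ n`.
(5) If `c` has the property `PushesAway κ` for some `κ > 0`, then no point of `𝔸 ^ N` of degree less
than `d` over `K` is preperiodic for the translate by `c` of any `G` of degree `d` with good
reduction.
(6) The maps `x_i ^ d + P_i` with `P_i` of degree less than `d` have good reduction. -/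
theorem result :
    (∀ (N : ℕ) (κ ε : ℝ), 1 ≤ N → 0 < κ → κ < 1 → 0 < ε → ∃ C : ℝ, 0 < C ∧
      ∀ (K : Type) [Field K] [NumberField K] (B : ℝ), 1 ≤ B →
        (Box K N B).Finite ∧ ((Exc K N κ B).ncard : ℝ) ≤
          (C * B ^ (2 * N - (1 - κ) / (N + 1) + ε)) ^ Module.finrank ℚ K) ∧
    (∀ (N : ℕ) (κ ε : ℝ), 1 ≤ N → 0 < κ → κ < 1 → 0 < ε → ∃ C : ℝ, 0 < C ∧
      ∀ (K : Type) [Field K] [NumberField K] (B : ℝ), 1 ≤ B →
        ((Exc K N κ B).ncard : ℝ) ≤
          (C * B ^ (-((1 - κ) / (N + 1)) + ε) * rootDisc K ^ (2 * N + ε)) ^ Module.finrank ℚ K *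
            ((Box K N B).ncard : ℝ)) ∧
    (∀ N : ℕ, 1 ≤ N → ∃ B0 : ℝ, 0 < B0 ∧
      ∀ (K : Type) [Field K] [NumberField K] (B : ℝ), B0 * rootDisc K ^ (11 * (N + 1) ^ 2) ≤ B →
        ((Exc K N (1 / 2) B).ncard : ℝ) ≤
          (B ^ (-(1 / (4 * (N + 1))) : ℝ)) ^ Module.finrank ℚ K * ((Box K N B).ncard : ℝ)) ∧
    (∀ (N : ℕ) (ε : ℝ), 0 < ε → ∃ C : ℝ, 0 < C ∧
      ∀ (K : Type) [Field K] [NumberField K] (B : ℝ), 8 * √(rootDisc K) ≤ B →
        (C⁻¹ * B ^ (2 * N - ε) * rootDisc K ^ (-(2 * N + ε))) ^ Module.finrank ℚ K ≤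
          ((Box K N B).ncard : ℝ)) ∧
    (∀ (K : Type) [Field K] [NumberField K] (N : ℕ) (κ : ℝ) (c : Fin N → K), 1 ≤ N → 0 < κ →
      PushesAway κ c → ∀ (d : ℕ) (G : Fin N → MvPolynomial (Fin N) (𝓞 K)), 2 ≤ d →
        GoodReduction d G → ∀ (L : Type) [Field L] [NumberField L] [Algebra K L],
          Module.finrank K L < d → ∀ x : Fin N → L,
            Function.Injective fun k : ℕ => (translate L G c)^[k] x) ∧
    (∀ (R : Type) [CommRing R] (N d : ℕ) (P : Fin N → MvPolynomial (Fin N) R),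
      (∀ i, (P i).totalDegree < d) → GoodReduction d fun i => X i ^ d + P i) :=
  ⟨part_one, part_two, part_three, part_four,
    fun _ _ _ _ _ _ hN hκ hc d G hd hG L _ _ _ hL x => part_five hN hκ hc d G hd hG L hL x,
    fun _ _ _ _ P hP => part_six P hP⟩

end Pool.Agent.Results.MP_13bc7b_nt.AllFieldsTranslates
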