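import Mathlib
import Pool.Agent.Y706.G16

/-!
# The preperiodic points of 100% of the members of every family of endomorphisms of `ℙ^N`

For 100% of the rational members of an arbitrary algebraic family of endomorphisms of `ℙ^N` over a
number field `k`, the number of the preperiodic points of degree at most `B` over `k` is equal to
the number of the preperiodic points of degree at most `B` of the generic member of the family, and
this number is finite.

Proof.  (1) Transfer: the ultrapower of `k` over an ultrafilter on the parameters which contains
no set of upper density zero contains the field `K` of rational functions in the parameters as a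
relatively algebraically closed subfield (Hilbert's irreducibility theorem with density). The periods
of the points of degree at most `B` are bounded by good reduction at two small primes, and a long
list of preperiodic points contains a long list of points with short tails, which are algebraic over
`K` and have degree at most `B` over `K`. Hence 100% of the members have not more points than the
generic member; they do not have less, since the ultrapower of the algebraic closure of `k` is
algebraically closed and contains the algebraic closure of `K`.
(2) Finiteness for the generic member: by the same embedding the periods over `K` are bounded. The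
tails are bounded by induction on the transcendence degree: a place which separates the finitely
many points `x` with `f^(1+e) x = f x` maps a point with a long tail to a preperiodic point of the
reduction with a long tail, and the degree does not grow. The induction starts with finite fields.
-/

namespace Pool.Agent.Results.MP_13bc7b_nt.GenericCount

open MvPolynomial NumberField Filter Topology LinearAlgebra.Projectivization

/-- The field `k(t_1, ..., t_m)`. -/
abbrev RF (k : Type) [Field k] (m : ℕ) : Type := FractionRing (MvPolynomial (Fin m) k)

/-- The forms have no common zero over the algebraic closure other than the origin: they define an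
endomorphism of the projective space. -/
def IsMorphism {K : Type} [Field K] {n : ℕ} (F : Fin n → MvPolynomial (Fin n) K) : Prop :=
  ∀ x : Fin n → AlgebraicClosure K, (∀ i, aeval x (F i) = 0) → x = 0

/-- The vector of the values of the forms. -/
noncomputable def image {K : Type} [Field K] {n : ℕ} (F : Fin n → MvPolynomial (Fin n) K)
    (x : Fin n → AlgebraicClosure K) : Fin n → AlgebraicClosure K := fun i => aeval x (F i)

/-- The forward orbit of the point with homogeneous coordinates `x`, as a set of lines. -/
def orbit {K : Type} [Field K] {n : ℕ} (F : Fin n → MvPolynomial (Fin n) K)
    (x : Fin n → AlgebraicClosure K) :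
    Set (Submodule (AlgebraicClosure K) (Fin n → AlgebraicClosure K)) :=
  Set.range fun j : ℕ => Submodule.span (AlgebraicClosure K) {(image F)^[j] x}

/-- The degree over `K` of the point with homogeneous coordinates `x`, that is, of the field
generated by the quotients of the coordinates. -/
noncomputable def degree (K : Type) [Field K] {n : ℕ} (x : Fin n → AlgebraicClosure K) : ℕ :=
  Module.finrank K (IntermediateField.adjoin K (Set.range fun ij : Fin n × Fin n =>
    x ij.1 / x ij.2))

/-- The preperiodic points of degree at most `B` over `K`. -/
def preper {K : Type} [Field K] {n : ℕ} (F : Fin n → MvPolynomial (Fin n) K) (B : ℕ) :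
    Set (ℙ (AlgebraicClosure K) (Fin n → AlgebraicClosure K)) :=
  {p | (orbit F p.rep).Finite ∧ degree K p.rep ≤ B}

/-- The generic member of the family `F`, over `k(t_1, ..., t_m)`. -/
noncomputable def generic {k : Type} [Field k] {n m : ℕ}
    (F : Fin n → MvPolynomial (Fin n) (MvPolynomial (Fin m) k)) :
    Fin n → MvPolynomial (Fin n) (RF k m) :=
  fun i => (F i).map (algebraMap (MvPolynomial (Fin m) k) (RF k m))

/-- The member of the family `F` at `t = (v_1 / v_0, ..., v_m / v_0)`. -/
noncomputable def special {k : Type} [Field k] {n m : ℕ} (v : Fin (m + 1) → 𝓞 k)
    (F : Fin n → MvPolynomial (Fin n) (MvPolynomial (Fin m) k)) :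
    Fin n → MvPolynomial (Fin n) k :=
  fun i => (F i).map (MvPolynomial.eval fun l : Fin m =>
    algebraMap (𝓞 k) k (v l.succ) / algebraMap (𝓞 k) k (v 0))

/-- The vectors of integers of `k` whose coordinates with respect to the basis `ω` are at most `H`
in absolute value. -/
def box {k : Type} [Field k] {J : Type} (ω : Module.Basis J ℤ (𝓞 k)) (m H : ℕ) :
    Set (Fin (m + 1) → 𝓞 k) :=
  {v | ∀ l j, |ω.repr (v l) j| ≤ (H : ℤ)}

/-- The set `S` contains 100% of the vectors in the boxes. -/
def AlmostAll {k : Type} [Field k] {J : Type} (ω : Module.Basis J ℤ (𝓞 k)) (m : ℕ)
    (S : Set (Fin (m + 1) → 𝓞 k)) : Prop :=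
  Tendsto (fun H : ℕ => (({v | v ∈ box ω m H ∧ v ∈ S}.ncard : ℝ) / ((box ω m H).ncard : ℝ)))
    atTop (𝓝 1)

/-- Let `k` be a number field (of any degree) with an integral basis `ω`, and let
`F_0, ..., F_N ∈ k[t_1, ..., t_m][x_0, ..., x_N]` be homogeneous of degree `d ≥ 2` in `x`, without a
common zero over an algebraic closure of `k(t_1, ..., t_m)`. Then for every `B` the endomorphism
`F` of `ℙ^N` over `k(t_1, ..., t_m)` has only finitely many preperiodic points of degree at most `B`
over `k(t_1, ..., t_m)`, and for 100% of the vectors `(v_0, ..., v_m)` of integers of `k`, `v_0 ≠ 0`
and the specialisation of `F` at `t = (v_1 / v_0, ..., v_m / v_0)` is an endomorphism of `ℙ^N` which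
has exactly as many preperiodic points of degree at most `B` over `k`. -/
theorem result (k : Type) [Field k] [NumberField k] (J : Type) [Fintype J]
    (ω : Module.Basis J ℤ (𝓞 k)) (N d : ℕ) (hd : 2 ≤ d) (m : ℕ)
    (F : Fin (N + 1) → MvPolynomial (Fin (N + 1)) (MvPolynomial (Fin m) k))
    (hF : ∀ i, (F i).IsHomogeneous d) (hmor : IsMorphism (generic F)) (B : ℕ) :
    (preper (generic F) B).Finite ∧
    AlmostAll ω m {v | v 0 ≠ 0 ∧ IsMorphism (special v F) ∧
      (preper (special v F) B).encard = (preper (generic F) B).encard} :=
  Pool.Agent.Y706.main5 k J ω N d hd m F hF hmor B

end Pool.Agent.Results.MP_13bc7b_nt.GenericCount
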