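import Mathlib
import Pool.Agent.Y902.GN.Dy6
import Pool.Agent.Y902.GN.FinB

/-!
# Rational preperiodic points of unicritical polynomials of large degree

For every `ε > 0` there are `d₀` and `δ > 0` such that for every `Y ≥ 1` there are at most `Y ^ ε`
pairs `(d, t)` with `d₀ ≤ d ≤ Y ^ δ` and `t` rational of height at most `Y ^ (d * (d - 1))` such that
some polynomial `a z ^ d + b` with `a`, `b` nonzero rational numbers and `a * b ^ (d - 1) = t` has
more than five preperiodic points in `ℚ`.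

Every polynomial of degree `d` over `ℚ` with a single critical point in the plane is conjugate over
`ℚ` to some `a z ^ d + b`, and for `b ≠ 0` its class is given by the number `a * b ^ (d - 1)`. So up
to conjugation all but `Y ^ ε` of these polynomials, of all the degrees `d` together, have at most
five rational preperiodic points.

Method: for three nonzero preperiodic points `x, y, z` with different `d`-th powers the quotient of
`x ^ d - y ^ d` and `x ^ d - z ^ d` has height at most a fixed power of `Y`. By the determinant method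
in an ultraproduct, with the unbounded exponent as a coefficient, there are at most `Y ^ ε` points
`(x : y : z)` of this kind, all `d` together.
-/

set_option autoImplicit false

namespace Pool.Agent.Results.MP_13bc7b_nt.UnicriticalLargeDegree

open Pool.Agent.Y902.GN

/-- the height of `q` is at most `B` -/
def HeightLE (B : ℕ) (q : ℚ) : Prop := |q.num| ≤ (B : ℤ) ∧ q.den ≤ B

/-- the polynomial map `z ↦ a z ^ d + b` -/
def unicritical (a b : ℚ) (d : ℕ) (z : ℚ) : ℚ := a * z ^ d + b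

/-- the rational numbers with finite forward orbit -/
def preperiodic (f : ℚ → ℚ) : Set ℚ := {z | (Set.range fun n : ℕ => f^[n] z).Finite}

/-- the pairs `(d, t)` with `d₀ ≤ d ≤ Y ^ δ`, `t` of height at most `Y ^ (d * (d - 1))`, such that
some `a z ^ d + b` with `a * b ^ (d - 1) = t`, `a, b ≠ 0`, has more than five rational preperiodic
points -/
def exceptional (d₀ : ℕ) (δ : ℝ) (Y : ℕ) : Set (ℕ × ℚ) :=
  {p | d₀ ≤ p.1 ∧ (p.1 : ℝ) ≤ (Y : ℝ) ^ δ ∧ HeightLE (Y ^ (p.1 * (p.1 - 1))) p.2 ∧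
    ∃ a b : ℚ, a ≠ 0 ∧ b ≠ 0 ∧ a * b ^ (p.1 - 1) = p.2 ∧
      5 < (preperiodic (unicritical a b p.1)).encard}

/-- For every `ε > 0` there are `d₀` and `δ > 0` such that for all `Y ≥ 1` there are at most `Y ^ ε`
pairs `(d, t)` with `d₀ ≤ d ≤ Y ^ δ` and `t` of height at most `Y ^ (d * (d - 1))` such that some
`a z ^ d + b` with rational `a, b ≠ 0`, `a * b ^ (d - 1) = t`, has more than five rational
preperiodic points. -/
theorem result (ε : ℝ) (hε : 0 < ε) : ∃ (d₀ : ℕ) (δ : ℝ), 0 < δ ∧ ∀ Y : ℕ, 1 ≤ Y →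
    (exceptional d₀ δ Y).Finite ∧ ((exceptional d₀ δ Y).ncard : ℝ) ≤ (Y : ℝ) ^ ε := by
  obtain ⟨d₁, δ, hδ, H⟩ := uni ε hε
  refine ⟨d₁ + 1, δ, hδ, fun Y hY => ?_⟩
  refine fin_of_bound _ _ fun T hT => ?_
  refine H Y hY T fun t ht => ?_
  obtain ⟨h1, h2, h3, a, b, ha, hb, hab, h4⟩ := hT t ht
  have hd : t.1 ≠ 0 := by omega
  refine ⟨by omega, h2, ?_, h3, (fun z => z / b) '' preperiodic (unicritical a b t.1), ?_, ?_⟩
  · rw [← hab]
    exact mul_ne_zero ha (pow_ne_zero _ hb)
  · rw [Set.InjOn.encard_image]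
    · exact h4
    · intro x _ y _ h
      exact (div_left_inj' hb).1 h
  rintro _ ⟨w, hw, rfl⟩
  obtain ⟨f, hf⟩ : ∃ f : ℚ → ℚ, f = unicritical a b t.1 := ⟨_, rfl⟩
  rw [← hf] at hw ⊢
  refine ⟨(fun z => z / b) '' (Set.range fun n : ℕ => f^[n] w), Set.image_mono ?_,
    ⟨w, ⟨0, rfl⟩, rfl⟩, Set.Finite.image _ hw, ?_⟩
  · rintro _ ⟨n, rfl⟩
    refine Set.Finite.subset hw ?_
    rintro _ ⟨m, rfl⟩
    exact ⟨m + n, Function.iterate_add_apply _ m n w⟩
  · rintro _ ⟨_, ⟨n, rfl⟩, rfl⟩
    refine ⟨f^[n + 1] w, ⟨n + 1, rfl⟩, ?_⟩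
    show f^[n + 1] w / b = t.2 * (f^[n] w / b) ^ t.1 + 1
    have e1 : f^[n + 1] w = a * (f^[n] w) ^ t.1 + b := by
      rw [Function.iterate_succ_apply', hf]
      rfl
    have e2 : b ^ t.1 = b ^ (t.1 - 1) * b := by
      rw [← pow_succ]
      congr 1
      omega
    have e3 : b ^ (t.1 - 1) ≠ 0 := pow_ne_zero _ hb
    rw [e1, ← hab, div_pow, e2]
    field_simp

end Pool.Agent.Results.MP_13bc7b_nt.UnicriticalLargeDegree
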